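import Pool.Agent.V11187.RotorGeo

set_option autoImplicit false

/-! Goldberg's question on rotors in a regular triangular prism (MP_c2e62a_gt): every convex body
that is a rotor in the regular triangular prism is a ball. -/

open Metric Set
open scoped RealInnerProductSpace

namespace Pool.Agent.Results.MP_c2e62a_gt.EveryRotorBall

/-- Euclidean space `R^3` -/
abbrev E3 := EuclideanSpace ℝ (Fin 3)

/-- the vertical unit vector `(0, 0, 1)` -/
noncomputable def ez : E3 := EuclideanSpace.single 2 1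

/-- `P 0, P 1, P 2` are the vertices of an equilateral triangle of side `s` in the plane `z = 0` -/
def IsEquilateral (P : Fin 3 → E3) (s : ℝ) : Prop :=
  0 < s ∧ (∀ i, P i 2 = 0) ∧ ∀ i j, i ≠ j → dist (P i) (P j) = s

/-- the vertical cylinder `A × R` over a set `A` of the plane `z = 0` -/
def cyl (A : Set E3) : Set E3 := {x | ∃ y ∈ A, ∃ t : ℝ, x = y + t • ez}

/-- the infinite triangular prism `T × R` over the triangle `T` with vertices `P i` -/
def prism (P : Fin 3 → E3) : Set E3 := cyl (convexHull ℝ (range P))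

/-- the face of the prism over the edge of `T` opposite to the vertex `P i` -/
def face (P : Fin 3 → E3) (i : Fin 3) : Set E3 := cyl (convexHull ℝ (P '' {j | j ≠ i}))

/-- `K` is a rotor in the prism: for every rotation `ρ` (linear isometry of determinant `1`) some
translate of `ρ K` lies in the prism and meets each of the three faces -/
def IsRotor (P : Fin 3 → E3) (K : Set E3) : Prop :=
  ∀ ρ : E3 ≃ₗᵢ[ℝ] E3, LinearMap.det (ρ.toLinearEquiv : E3 →ₗ[ℝ] E3) = 1 → ∃ t : E3,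
    (fun x => ρ x + t) '' K ⊆ prism P ∧ ∀ i, ((fun x => ρ x + t) '' K ∩ face P i).Nonempty

open Pool.Agent.V11187.Rotor in
/-- **Every convex body that is a rotor in a regular triangular prism is a ball** (of radius
`s √3 / 6`, the inradius of the triangle of side `s`). -/
theorem result (P : Fin 3 → E3) (s : ℝ) (hP : IsEquilateral P s) (K : Set E3)
    (hK : IsCompact K) (hconv : Convex ℝ K) (hint : (interior K).Nonempty) (hrot : IsRotor P K) :
    ∃ a : E3, K = closedBall a (s * √3 / 6) := by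
  obtain ⟨hs0, hz, hd⟩ := hP
  have hne : K.Nonempty := hint.mono interior_subset
  obtain ⟨e1, he1⟩ : ∃ e : E3, e = P 1 - P 0 := ⟨_, rfl⟩
  obtain ⟨e2, he2⟩ : ∃ e : E3, e = P 2 - P 0 := ⟨_, rfl⟩
  have h11 : ⟪e1, e1⟫ = s ^ 2 := by
    rw [real_inner_self_eq_norm_sq, he1, ← dist_eq_norm, hd 1 0 (by decide)]
  have h22 : ⟪e2, e2⟫ = s ^ 2 := by
    rw [real_inner_self_eq_norm_sq, he2, ← dist_eq_norm, hd 2 0 (by decide)]
  have h12 : ⟪e1, e2⟫ = s ^ 2 / 2 := by
    have h3 : ⟪e1 - e2, e1 - e2⟫ = s ^ 2 := by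
      rw [real_inner_self_eq_norm_sq, he1, he2, sub_sub_sub_cancel_right, ← dist_eq_norm,
        hd 1 2 (by decide)]
    rw [inner_sub_left, inner_sub_right, inner_sub_right, h11, h22, real_inner_comm e1 e2] at h3
    linarith
  have h21 : ⟪e2, e1⟫ = s ^ 2 / 2 := by rw [real_inner_comm, h12]
  have hzz : ∀ x : E3, x 2 = 0 → ⟪x, ez⟫ = 0 := by
    intro x hx
    rw [ez, EuclideanSpace.inner_single_right]
    simp [hx]
  have hez1 : ⟪e1, ez⟫ = 0 := hzz _ (by simp [he1, hz])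
  have hez2 : ⟪e2, ez⟫ = 0 := hzz _ (by simp [he2, hz])
  have hP1 : P 1 = P 0 + e1 := by rw [he1]; abel
  have hP2 : P 2 = P 0 + e2 := by rw [he2]; abel
  -- the support function at the three normals
  have key : ∀ (i : Fin 3) (N : E3) (c : ℝ), ⟪N, ez⟫ = 0 → (∀ j, ⟪N, P j⟫ ≤ c) →
      (∀ j, j ≠ i → ⟪N, P j⟫ = c) → ∀ (ρ : E3 ≃ₗᵢ[ℝ] E3) (t : E3),
      (fun x => ρ x + t) '' K ⊆ prism P → ((fun x => ρ x + t) '' K ∩ face P i).Nonempty →
      hs K (ρ.symm N) = c - ⟪N, t⟫ := by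
    intro i N c hN hle heq ρ t hsub hmeet
    have hle' : ∀ y ∈ prism P, ⟪N, y⟫ ≤ c := by
      rintro y ⟨z, hz, τ, rfl⟩
      rw [inner_add_right, inner_smul_right, hN, mul_zero, add_zero]
      have hcv : Convex ℝ {z : E3 | ⟪N, z⟫ ≤ c} := by
        have := convex_halfSpace_le (𝕜 := ℝ) (f := fun z : E3 => ⟪N, z⟫)
          ⟨fun x y => inner_add_right _ _ _, fun r x => inner_smul_right _ _ _⟩ c
        exact this
      have hsub2 : convexHull ℝ (range P) ⊆ {z : E3 | ⟪N, z⟫ ≤ c} :=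
        convexHull_min (by rintro _ ⟨j, rfl⟩; exact hle j) hcv
      exact hsub2 hz
    have heq' : ∀ y ∈ face P i, ⟪N, y⟫ = c := by
      rintro y ⟨z, hz, τ, rfl⟩
      rw [inner_add_right, inner_smul_right, hN, mul_zero, add_zero]
      have hcv : Convex ℝ {z : E3 | ⟪N, z⟫ = c} := by
        have := convex_hyperplane (𝕜 := ℝ) (f := fun z : E3 => ⟪N, z⟫)
          ⟨fun x y => inner_add_right _ _ _, fun r x => inner_smul_right _ _ _⟩ c
        exact this
      have hsub2 : convexHull ℝ (P '' {j | j ≠ i}) ⊆ {z : E3 | ⟪N, z⟫ = c} :=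
        convexHull_min (by rintro _ ⟨j, hj, rfl⟩; exact heq j hj) hcv
      exact hsub2 hz
    obtain ⟨y, ⟨x, hx, rfl⟩, hy⟩ := hmeet
    have h1 := heq' _ hy
    have hinn : ∀ z : E3, ⟪ρ.symm N, z⟫ = ⟪N, ρ z⟫ := by
      intro z
      rw [← LinearIsometryEquiv.inner_map_map ρ, LinearIsometryEquiv.apply_symm_apply]
    simp only [inner_add_right] at h1
    rw [hs_eq hK hne (ρ.symm N) x hx, hinn]
    · linarith
    · intro z hzK
      have h2 := hle' _ (hsub ⟨z, hzK, rfl⟩)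
      simp only [inner_add_right] at h2
      rw [hinn, hinn]
      linarith
  obtain ⟨N0, hN0⟩ : ∃ e : E3, e = (1 / 3 : ℝ) • (e1 + e2) := ⟨_, rfl⟩
  obtain ⟨N1, hN1⟩ : ∃ e : E3, e = (1 / 3 : ℝ) • (e2 - (2 : ℝ) • e1) := ⟨_, rfl⟩
  obtain ⟨N2, hN2⟩ : ∃ e : E3, e = (1 / 3 : ℝ) • (e1 - (2 : ℝ) • e2) := ⟨_, rfl⟩
  have hsq : 0 < s ^ 2 := by positivity
  have h3 : (√3) ^ 2 = 3 := sq3
  have h3p : 0 < √3 := Real.sqrt_pos.2 (by norm_num)
  obtain ⟨n, hn⟩ : ∃ e : E3, e = (√3 / s) • N0 := ⟨_, rfl⟩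
  obtain ⟨m, hm⟩ : ∃ e : E3, e = (1 / s) • (e2 - e1) := ⟨_, rfl⟩
  have hn1 : ‖n‖ = 1 := by
    have e : ‖n‖ ^ 2 = 1 := by
      rw [← real_inner_self_eq_norm_sq, hn, hN0]
      simp only [inner_smul_left, inner_smul_right, inner_add_left, inner_add_right, h11, h22, h12, h21]
      simp only [map_div₀, map_one, conj_trivial]
      field_simp
      nlinarith
    nlinarith [norm_nonneg n]
  have hm1 : ‖m‖ = 1 := by
    have e : ‖m‖ ^ 2 = 1 := by
      rw [← real_inner_self_eq_norm_sq, hm]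
      simp only [inner_smul_left, inner_smul_right, inner_sub_left, inner_sub_right, h11, h22, h12, h21]
      simp only [conj_trivial]
      field_simp
      ring
    nlinarith [norm_nonneg m]
  have hnm : ⟪n, m⟫ = 0 := by
    rw [hn, hm, hN0]
    simp only [inner_smul_left, inner_smul_right, inner_add_left, inner_sub_right, h11, h22, h12, h21]
    ring
  apply ball_of_const K hK hne hconv n m hn1 hm1 hnm (s * √3 / 6) (by positivity)
  intro ρ hρ
  obtain ⟨t, hsub, hmeet⟩ := hrot ρ hρ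
  have en1 : -(1 / 2 : ℝ) • n + (√3 / 2) • m = (√3 / s) • N1 := by
    rw [hn, hm, hN0, hN1]; module
  have en2 : -(1 / 2 : ℝ) • n - (√3 / 2) • m = (√3 / s) • N2 := by
    rw [hn, hm, hN0, hN2]; module
  rw [en1, en2, hn, map_smul, map_smul, map_smul, hs_smul hK hne _ (ρ.symm N0) (by positivity),
    hs_smul hK hne _ (ρ.symm N1) (by positivity), hs_smul hK hne _ (ρ.symm N2) (by positivity)]
  have val : ∀ (N : E3) (v1 v2 : ℝ), ⟪N, e1⟫ = v1 → ⟪N, e2⟫ = v2 →
      ⟪N, P 1⟫ = ⟪N, P 0⟫ + v1 ∧ ⟪N, P 2⟫ = ⟪N, P 0⟫ + v2 := by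
    intro N v1 v2 h1 h2
    rw [hP1, hP2, inner_add_right, inner_add_right, h1, h2]
    exact ⟨rfl, rfl⟩
  obtain ⟨a01, a02⟩ := val N0 (s ^ 2 / 2) (s ^ 2 / 2)
    (by rw [hN0]; simp only [inner_smul_left, inner_add_left, h11, h21, conj_trivial]; ring)
    (by rw [hN0]; simp only [inner_smul_left, inner_add_left, h22, h12, conj_trivial]; ring)
  obtain ⟨a11, a12⟩ := val N1 (-(s ^ 2 / 2)) 0
    (by rw [hN1]; simp only [inner_smul_left, inner_sub_left, h11, h21, conj_trivial]; ring)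
    (by rw [hN1]; simp only [inner_smul_left, inner_sub_left, h22, h12, conj_trivial]; ring)
  obtain ⟨a21, a22⟩ := val N2 0 (-(s ^ 2 / 2))
    (by rw [hN2]; simp only [inner_smul_left, inner_sub_left, h11, h21, conj_trivial]; ring)
    (by rw [hN2]; simp only [inner_smul_left, inner_sub_left, h22, h12, conj_trivial]; ring)
  have k0 := key 0 N0 (⟪N0, P 0⟫ + s ^ 2 / 2)
    (by rw [hN0, inner_smul_left, inner_add_left, hez1, hez2]; simp)
    (by intro j; fin_cases j <;> simp only [Fin.zero_eta, Fin.mk_one, Fin.reduceFinMk, a01, a02] <;> linarith)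
    (by intro j hj; fin_cases j
        · exact absurd rfl hj
        · exact a01
        · exact a02) ρ t hsub (hmeet 0)
  have k1 := key 1 N1 (⟪N1, P 0⟫)
    (by rw [hN1, inner_smul_left, inner_sub_left, inner_smul_left, hez1, hez2]; simp)
    (by intro j; fin_cases j <;> simp only [Fin.zero_eta, Fin.mk_one, Fin.reduceFinMk, a11, a12] <;> linarith)
    (by intro j hj; fin_cases j
        · rfl
        · exact absurd rfl hj
        · exact a12.trans (add_zero _)) ρ t hsub (hmeet 1)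
  have k2 := key 2 N2 (⟪N2, P 0⟫)
    (by rw [hN2, inner_smul_left, inner_sub_left, inner_smul_left, hez1, hez2]; simp)
    (by intro j; fin_cases j <;> simp only [Fin.zero_eta, Fin.mk_one, Fin.reduceFinMk, a21, a22] <;> linarith)
    (by intro j hj; fin_cases j
        · rfl
        · exact a21.trans (add_zero _)
        · exact absurd rfl hj) ρ t hsub (hmeet 2)
  · have hsum : N0 + N1 + N2 = 0 := by rw [hN0, hN1, hN2]; module
    have hs1 : ⟪N0, P 0⟫ + ⟪N1, P 0⟫ + ⟪N2, P 0⟫ = 0 := by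
      rw [← inner_add_left, ← inner_add_left, hsum, inner_zero_left]
    have hs2 : ⟪N0, t⟫ + ⟪N1, t⟫ + ⟪N2, t⟫ = 0 := by
      rw [← inner_add_left, ← inner_add_left, hsum, inner_zero_left]
    rw [k0, k1, k2]
    have : √3 / s * (⟪N0, P 0⟫ + s ^ 2 / 2 - ⟪N0, t⟫) + √3 / s * (⟪N1, P 0⟫ - ⟪N1, t⟫) +
        √3 / s * (⟪N2, P 0⟫ - ⟪N2, t⟫) = √3 / s * ((⟪N0, P 0⟫ + ⟪N1, P 0⟫ + ⟪N2, P 0⟫) -
          (⟪N0, t⟫ + ⟪N1, t⟫ + ⟪N2, t⟫) + s ^ 2 / 2) := by ring
    rw [this, hs1, hs2]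
    field_simp
    ring
end Pool.Agent.Results.MP_c2e62a_gt.EveryRotorBall
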